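import Pool.Agent.W5h33.DF.Field

/-!
# `μ = 0` for abelian extensions of imaginary quadratic fields: reduction to the decomposition field

Let `p` be odd and let `K / ℚ` be a finite Galois extension (for Q1: abelian over the imaginary
quadratic field `k`). `K^ab` is the largest subfield which is abelian over `ℚ`. Let `B ≤ K^ab` be such
that `p` does not divide `[K : B]` (so `B = ℚ` if `p` does not divide `[K : ℚ]`; by Iwasawa's theorem
on `p`-extensions it is enough for Q1 to consider `K` with `p` prime to `[K : k]`), and let `Z` be the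
decomposition field in `K / B` of a prime of `K` above `p`. For a number field `E` let `d(E)` be the
order of `Cl(E) / p`, the largest degree of an unramified elementary abelian `p`-extension of `E`;
`DegLe p E C` says `d(E) ≤ C`. Let `R` be a layer of the cyclotomic `ℤ_p`-extension of `ℚ`. Assume

* `d(K R) / d(K^ab R) < p ^ (2 [K R : K])`, that is, the `p`-rank of the class group of `K R` exceeds
  the one of `K^ab R` by less than `2 [K R : K]`; or
* `R = ℚ`, `K` is abelian over an imaginary quadratic field, and `p` does not divide the class number of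
  `K⁺ = K ∩ ℝ`.

Then `d(K R') ≤ N d(K^ab R') d(Z R') ^ [Z : ℚ]` for all layers `R'` which contain `R`, where `N` is
the quotient `d(K R) / d(K^ab R)` in the first case and `1` in the second case, and the factor
`d(Z R') ^ [Z : ℚ]` may be omitted if `Z ≤ K^ab`. So `μ = 0` for `K` if and only if `μ = 0` for `K^ab`
and for `Z`. By Ferrero and Washington `μ = 0` for `K^ab`. So for all odd primes `p` prime to
`[K : ℚ]` and to the class number of `K⁺`, Q1 for `K` is equivalent to `μ = 0` for the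
decomposition field of `p` in `K`.

Proof. Let `V` be the group of a maximal unramified elementary abelian `p`-extension of `K R'` which is
Galois over `ℚ`. Let `U` be the subgroup generated by the elements fixed by the group of `K^ab R'` and
by the elements fixed by the decomposition groups, let `γ` generate the group of `K R' / K`, and
`S = U (γ - 1) ^ q V`, `q = [K R : K]`. Then `V / S` is a quotient of the relative class group
of `K R`: modulo `S` the inertia groups at the primes above `p` are fixed by the decomposition groups,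
so they are contained in the part which is fixed by the group of `K^ab R'`. The orders of the
factors of the filtration `U (γ - 1) ^ i V` are at least `p ^ 2` as long as this is not `U`, since the
commutator subgroup acts trivially on groups of order `p`. So `S = U`.
-/

set_option autoImplicit false

namespace Pool.Agent.Results.MP_b78433_nt.DecompositionField

open IntermediateField Module Pool.Agent.Q60.MU Pool.Agent.W5h77.MB Pool.Agent.W5h33.DF
open scoped Pointwise

/-- `K / ℚ` is a finite Galois extension. -/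
def IsFiniteGalois (K : IntermediateField ℚ Qb) : Prop := FiniteDimensional ℚ K ∧ IsGalois ℚ K

/-- `k` is an imaginary quadratic field. -/
def IsImaginaryQuadratic (ι : Qb →+* ℂ) (k : IntermediateField ℚ Qb) : Prop :=
  finrank ℚ k = 2 ∧ ¬ k ≤ realSub ι

/-- `K` is an abelian extension of `k` (if `K` is Galois over `ℚ`). -/
def IsAbelianOver (k K : IntermediateField ℚ Qb) : Prop :=
  k ≤ K ∧ ∀ σ ∈ k.fixingSubgroup, ∀ τ ∈ k.fixingSubgroup, ∀ x ∈ K, σ (τ x) = τ (σ x)

/-- `p` does not divide `[K : B]`. -/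
def PrimeToP (p : ℕ) (B K : IntermediateField ℚ Qb) : Prop :=
  ∃ n, finrank ℚ K = n * finrank ℚ B ∧ ¬ p ∣ n

/-- `d(K R) ≤ C`, `d(K^ab R) ≥ E + 1` and `C < p ^ (2 [K R : K]) (E + 1)`. -/
def Small (p : ℕ) (K R : IntermediateField ℚ Qb) (C E : ℕ) : Prop :=
  DegLe p (K ⊔ R) C ∧ ¬ DegLe p (abPart K ⊔ R) E ∧
    C < p ^ (2 * (finrank ℚ ↥(K ⊔ R) / finrank ℚ K)) * (E + 1)

/-- `K` is abelian over an imaginary quadratic field, and `p` does not divide the class number of the
real field `K⁺`. -/
def RealClassNumber (p : ℕ) (K : IntermediateField ℚ Qb) : Prop :=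
  ∃ (ι : Qb →+* ℂ) (k : IntermediateField ℚ Qb), IsImaginaryQuadratic ι k ∧ IsAbelianOver k K ∧
    DegLe p (K ⊓ realSub ι) 1

/-- `d(K R) ≤ N d(K^ab R) d(Z R) ^ [Z : ℚ]`, and `d(K R) ≤ N d(K^ab R)` if `Z ≤ K^ab`. -/
def Bound (p : ℕ) (K Z R : IntermediateField ℚ Qb) (N : ℕ) : Prop :=
  ∀ C', DegLe p (abPart K ⊔ R) C' →
    (∀ C'', DegLe p (Z ⊔ R) C'' → DegLe p (K ⊔ R) (N * (C' * C'' ^ finrank ℚ Z))) ∧
    (Z ≤ abPart K → DegLe p (K ⊔ R) (N * C'))

theorem result (p : ℕ) (hp : p.Prime) (hp2 : p ≠ 2) (K B Z : IntermediateField ℚ Qb)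
    (hK : IsFiniteGalois K) (hB : B ≤ abPart K) (hpK : PrimeToP p B K) (A : ValuationSubring Qb)
    (hA : (p : Qb) ∈ A.nonunits) (hZ : IsDecompositionField A B K Z) (m : ℕ)
    (R : IntermediateField ℚ Qb) (hR : IsLayer p m R) (N : ℕ)
    (h : (∃ C E, Small p K R C E ∧ N = C / (E + 1)) ∨ (R = ⊥ ∧ RealClassNumber p K ∧ N = 1)) :
    (∀ (m' : ℕ) (R' : IntermediateField ℚ Qb), IsLayer p m' R' → R ≤ R' → Bound p K Z R' N) ∧
    (MuZero p K ↔ MuZero p (abPart K) ∧ MuZero p Z) ∧
    (Z ≤ abPart K → (MuZero p K ↔ MuZero p (abPart K))) := by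
  have hpf : Fact p.Prime := ⟨hp⟩
  obtain ⟨hfK, hgK⟩ := hK
  have hab : abPart K ≤ K := abPart_le K
  have hZK : Z ≤ K := fun x hx => ((hZ x).1 hx).1
  have hbd : ∀ (m' : ℕ) (R' : IntermediateField ℚ Qb), IsLayer p m' R' → R ≤ R' →
      Bound p K Z R' N := by
    intro m' R' hR' hRR C' hC'
    rcases h with ⟨C, E, ⟨h1, h2, h3⟩, rfl⟩ | ⟨rfl, ⟨ι, k, ⟨hk1, hk2⟩, ⟨-, hk3⟩, h1⟩, rfl⟩
    · refine ⟨fun C'' hC'' => ?_, fun hZab => ?_⟩
      · exact bound hp2 hB hpK hA hZ hR hR' hRR h1 h2 h3 (Or.inl ⟨C', C'', hC', hC'', rfl⟩)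
      · exact bound hp2 hB hpK hA hZ hR hR' hRR h1 h2 h3 (Or.inr ⟨hZab, hC'⟩)
    · refine ⟨fun C'' hC'' => ?_, fun hZab => ?_⟩
      · rw [one_mul]
        exact bound_plus hp2 hB hpK hA hZ ι k hk1 hk2 hk3 h1 hR' hC'
          (Or.inl ⟨C', C'', hC', hC'', rfl⟩)
      · rw [one_mul]
        exact bound_plus hp2 hB hpK hA hZ ι k hk1 hk2 hk3 h1 hR' hC' (Or.inr ⟨hZab, hC'⟩)
  refine ⟨hbd, ⟨fun h => ⟨mu_down hp hab h, mu_down hp hZK h⟩, ?_⟩,
    fun hZab => ⟨fun h => mu_down hp hab h, ?_⟩⟩
  · rintro ⟨⟨C', hC'⟩, ⟨C'', hC''⟩⟩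
    exact mu_of_above hR ⟨_, fun m' R' hR' hRR =>
      (hbd m' R' hR' hRR C' (hC' m' R' hR')).1 C'' (hC'' m' R' hR')⟩
  · rintro ⟨C', hC'⟩
    exact mu_of_above hR ⟨_, fun m' R' hR' hRR =>
      (hbd m' R' hR' hRR C' (hC' m' R' hR')).2 hZab⟩

end Pool.Agent.Results.MP_b78433_nt.DecompositionField
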