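import Pool.Agent.W5h33.DF.Real
import Pool.Agent.W5h33.DF.Exist

/-!
# `μ = 0` for abelian extensions of imaginary quadratic fields: a criterion at a finite level

Let `p` be odd and let `K / ℚ` be a finite Galois extension (for Q1: abelian over the imaginary
quadratic field `k`). `K^ab` is the largest subfield which is abelian over `ℚ`, and `p` does not divide
`[K : K^ab]` (by Iwasawa's theorem on `p`-extensions it is enough for Q1 to consider such `K`). For a
number field `E` let `d(E)` be the order of `Cl(E) / p`, the largest degree of an unramified elementary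
abelian `p`-extension of `E`; `DegLe p E C` says `d(E) ≤ C`. Let `q₀` be the largest power of `p` which
divides `[K : ℚ]`. For the layers `R` of the cyclotomic `ℤ_p`-extension of `ℚ` consider

* `d(K R) / d(K^ab R) < p ^ (2 ([K R : K] - q₀))`, that is, the `p`-rank of the class group of `K R`
  exceeds the one of `K^ab R` by less than `2 ([K R : K] - q₀)`.

If this holds for one layer `R`, then `d(K R') ≤ N d(K^ab R')` for all layers `R'` which contain `R`,
where `N` is the quotient `d(K R) / d(K^ab R)`. So `μ = 0` for `K` if and only if `μ = 0` for `K^ab`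
and the inequality holds for some layer `R`. There are no hypotheses on the decomposition of
`p` in `K`. If `K` is abelian over an imaginary quadratic field, then the inequality may be replaced by

* `d(K⁺ R) ^ [K : ℚ] < p ^ (2 ([K R : K] - q₀))`, where `K⁺ = K ∩ ℝ`.

By Ferrero and Washington `μ = 0` for `K^ab`. So Q1 for `K` and `p` is equivalent to each of the
two inequalities for some layer `R`, and for the given `K` and `p` it can be verified by the
computation of the class groups of two fields of finite degree.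

Proof. Let `V` be the group of a maximal unramified elementary abelian `p`-extension of `K R'` which is
Galois over `ℚ`, let `U` be the subgroup generated by the elements fixed by the group of `K^ab R'`, and
let `γ` generate the group of `K R' / K`, `q = [K R : K]`. The inertia groups at the primes above
`p` contain lifts of `γ ^ q₀`, since `p` is totally ramified in the cyclotomic `ℤ_p`-extension, and
they differ by elements of `V` which become fixed by the group of `K^ab R'` modulo
`(γ - 1) ^ (q - q₀) V`, so that `V / U (γ - 1) ^ (q - q₀) V` is a quotient of the relative class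
group of `K R`. The orders of the factors of the filtration `U (γ - 1) ^ i V` are at least `p ^ 2` as
long as this is not `U`, since the commutator subgroup acts trivially on groups of order `p`. So
`U (γ - 1) ^ (q - q₀) V = U`.
-/

set_option autoImplicit false

namespace Pool.Agent.Results.MP_b78433_nt.FiniteLevel

open IntermediateField Module Pool.Agent.Q60.MU Pool.Agent.W5h77.MB Pool.Agent.W5h33.DF

/-- `K / ℚ` is a finite Galois extension. -/
def IsFiniteGalois (K : IntermediateField ℚ Qb) : Prop := FiniteDimensional ℚ K ∧ IsGalois ℚ K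

/-- `k` is an imaginary quadratic field. -/
def IsImaginaryQuadratic (ι : Qb →+* ℂ) (k : IntermediateField ℚ Qb) : Prop :=
  finrank ℚ k = 2 ∧ ¬ k ≤ realSub ι

/-- `K` is an abelian extension of `k` (if `K` is Galois over `ℚ`). -/
def IsAbelianOver (k K : IntermediateField ℚ Qb) : Prop :=
  k ≤ K ∧ ∀ σ ∈ k.fixingSubgroup, ∀ τ ∈ k.fixingSubgroup, ∀ x ∈ K, σ (τ x) = τ (σ x)

/-- `p` does not divide `[K : B]`. -/
def PrimeToP (p : ℕ) (B K : IntermediateField ℚ Qb) : Prop :=
  ∃ n, finrank ℚ K = n * finrank ℚ B ∧ ¬ p ∣ n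

/-- `2 ([K R : K] - q₀)`, where `q₀` is the largest power of `p` which divides `[K : ℚ]`. -/
noncomputable def bd (p : ℕ) (K R : IntermediateField ℚ Qb) : ℕ :=
  2 * (finrank ℚ ↥(K ⊔ R) / finrank ℚ K - p ^ (finrank ℚ K).factorization p)

/-- `d(K R) ≤ C`, `d(K^ab R) ≥ E + 1` and `C < p ^ (2 ([K R : K] - q₀)) (E + 1)`. -/
def Small (p : ℕ) (K R : IntermediateField ℚ Qb) (C E : ℕ) : Prop :=
  DegLe p (K ⊔ R) C ∧ ¬ DegLe p (abPart K ⊔ R) E ∧ C < p ^ bd p K R * (E + 1)

/-- `d(K⁺ R) ≤ C` and `C ^ [K : ℚ] < p ^ (2 ([K R : K] - q₀))`. -/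
def SmallReal (p : ℕ) (ι : Qb →+* ℂ) (K R : IntermediateField ℚ Qb) (C : ℕ) : Prop :=
  DegLe p ((K ⊓ realSub ι) ⊔ R) C ∧ C ^ finrank ℚ K < p ^ bd p K R

theorem result (p : ℕ) (hp : p.Prime) (hp2 : p ≠ 2) (K : IntermediateField ℚ Qb)
    (hK : IsFiniteGalois K) (hpK : PrimeToP p (abPart K) K) :
    (∀ (m : ℕ) (R : IntermediateField ℚ Qb) (C E : ℕ), IsLayer p m R → Small p K R C E →
      ∀ (m' : ℕ) (R' : IntermediateField ℚ Qb), IsLayer p m' R' → R ≤ R' →
        ∀ C', DegLe p (abPart K ⊔ R') C' → DegLe p (K ⊔ R') (C / (E + 1) * C')) ∧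
    (MuZero p K ↔ MuZero p (abPart K) ∧
      ∃ (m : ℕ) (R : IntermediateField ℚ Qb) (C E : ℕ), IsLayer p m R ∧ Small p K R C E) ∧
    (∀ (ι : Qb →+* ℂ) (k : IntermediateField ℚ Qb), IsImaginaryQuadratic ι k →
      IsAbelianOver k K → (MuZero p K ↔ MuZero p (abPart K) ∧
        ∃ (m : ℕ) (R : IntermediateField ℚ Qb) (C : ℕ), IsLayer p m R ∧ SmallReal p ι K R C)) := by
  have hpf : Fact p.Prime := ⟨hp⟩
  obtain ⟨hfK, hgK⟩ := hK
  have hab : abPart K ≤ K := abPart_le K
  have hfA : FiniteDimensional ℚ (abPart K) := fd_of_le hab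
  have hbd : ∀ (m : ℕ) (R : IntermediateField ℚ Qb) (C E : ℕ), IsLayer p m R →
      Small p K R C E → ∀ (m' : ℕ) (R' : IntermediateField ℚ Qb), IsLayer p m' R' → R ≤ R' →
        ∀ C', DegLe p (abPart K ⊔ R') C' → DegLe p (K ⊔ R') (C / (E + 1) * C') := by
    intro m R C E hR hS m' R' hR' hRR C' hC'
    exact boundB hp2 hpK hR hR' hRR hS.1 hS.2.1 hS.2.2 hC'
  have hmu : ∀ (m : ℕ) (R : IntermediateField ℚ Qb) (C E : ℕ), IsLayer p m R →
      Small p K R C E → MuZero p (abPart K) → MuZero p K := by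
    rintro m R C E hR hS ⟨C', hC'⟩
    exact mu_of_above hR ⟨_, fun m' R' hR' hRR =>
      hbd m R C E hR hS m' R' hR' hRR C' (hC' m' R' hR')⟩
  refine ⟨hbd, ⟨fun h => ⟨mu_down hp hab h, ?_⟩, ?_⟩, ?_⟩
  · obtain ⟨C, hC⟩ := h
    obtain ⟨m₀, hm₀⟩ := eventuallyB (p := p) (K := K) C (p ^ (finrank ℚ K).factorization p)
    obtain ⟨R, hR⟩ := exists_layer hp hp2 m₀
    have hfR := layer_fd hp hR
    refine ⟨m₀, R, C, 0, hR, hC m₀ R hR, not_degLe_zero _, ?_⟩
    rw [zero_add, mul_one]
    exact hm₀ m₀ le_rfl R hR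
  · rintro ⟨h, m, R, C, E, hR, hS⟩
    exact hmu m R C E hR hS h
  · rintro ι k ⟨hk1, hk2⟩ ⟨-, hk3⟩
    refine ⟨fun h => ⟨mu_down hp hab h, ?_⟩, ?_⟩
    · obtain ⟨C, hC⟩ := mu_down hp (inf_le_left : K ⊓ realSub ι ≤ K) h
      obtain ⟨m₀, hm₀⟩ := eventuallyB (p := p) (K := K) (C ^ finrank ℚ K)
        (p ^ (finrank ℚ K).factorization p)
      obtain ⟨R, hR⟩ := exists_layer hp hp2 m₀
      exact ⟨m₀, R, C, hR, hC m₀ R hR, hm₀ m₀ le_rfl R hR⟩
    · rintro ⟨h, m, R, C, hR, h1, h2⟩
      obtain ⟨C₂, hC₂⟩ := h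
      obtain ⟨E, hE1, hE2, hE3⟩ := real_small hp2 hpK ι k hk1 hk2 hk3 hR h1 h2
        ⟨C₂, hC₂ m R hR⟩
      exact hmu m R _ E hR ⟨hE1, hE2, hE3⟩ ⟨C₂, hC₂⟩

end Pool.Agent.Results.MP_b78433_nt.FiniteLevel
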