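import Pool.Agent.W5h77.MB.Mu

/-!
# The `μ`-invariant over imaginary quadratic fields and the real subfields

Let `p` be odd, `k` imaginary quadratic, `K / k` abelian and `K / ℚ` Galois (every abelian extension of
`k` is contained in such a field). Let `K⁺ = K ∩ ℝ` (for a fixed embedding `ι` of the algebraic
numbers in `ℂ`); in general `K⁺ / ℚ` is not normal. Let `K^ab` be the largest subfield of `K` which is
abelian over `ℚ`, and let `p` be prime to `[K : K^ab]`. For a number field `E` let `d(E)` be the largest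
degree of an unramified elementary abelian `p`-extension of `E`, that is, the order of `Cl(E) / p`;
`DegLe p E C` says `d(E) ≤ C`.

1. For every real finite Galois extension `E` of `ℚ` (of any degree, and with any ramification)
   `d(K E) ≤ d(K⁺ E) ^ [K : ℚ] * d(K^ab E)`.
2. So `μ = 0` for `K` if and only if `μ = 0` for `K⁺` and for `K^ab`. (`μ = 0` for `K^ab` is the theorem
   of Ferrero and Washington, so Q1 for `K` is equivalent to `μ = 0` for the real field `K⁺`.)
3. If `K⁺` has exactly one prime above `p` and `p` does not divide its class number, then this holds for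
   all layers `K⁺_m`, and `d(K_m) ≤ d(K^ab_m)` for all `m`. So `μ = 0` for `K` if and only if `μ = 0` for
   `K^ab`. Here `K` itself may have more than one prime above `p`: for instance let `K / k` be cyclic
   and let `p` split in `k` in two primes which remain prime in `K`; then `p` remains prime in `K⁺`.
   By the theorem of Chebotarev these `p` have the density `φ(n) / (2 n)`, `n = [K : k]`.

Proof. (1) Let `c` be the complex conjugation. The group `V` of a maximal unramified elementary abelian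
`p`-extension of `K E` which is Galois over `ℚ` is a module over the absolute Galois group. By transfer
the coinvariants of each conjugate of `c` have order at most `d(K⁺ E)`. On the intersection of the
subgroups which are inverted by the conjugates the commutators of `c` act trivially, and these generate
the group of `K E / K^ab E`, since `K / k` is abelian. (3) is a group-theoretical form of the
classical argument for one ramified prime, applied to the field `K⁺`, which is not normal.
-/

set_option autoImplicit false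

namespace Pool.Agent.Results.MP_b78433_nt.RealSubfields

open IntermediateField Module Pool.Agent.Q60.MU Pool.Agent.W5h77.MB

/-- `k` is an imaginary quadratic field. -/
def IsImaginaryQuadratic (ι : Qb →+* ℂ) (k : IntermediateField ℚ Qb) : Prop :=
  finrank ℚ k = 2 ∧ ¬ k ≤ realSub ι

/-- `K` is an abelian extension of `k` (if `K` is Galois over `ℚ`). -/
def IsAbelianOver (k K : IntermediateField ℚ Qb) : Prop :=
  k ≤ K ∧ ∀ σ ∈ k.fixingSubgroup, ∀ τ ∈ k.fixingSubgroup, ∀ x ∈ K, σ (τ x) = τ (σ x)

/-- `K⁺ = K ∩ ℝ`. -/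
noncomputable def plus (ι : Qb →+* ℂ) (K : IntermediateField ℚ Qb) : IntermediateField ℚ Qb := K ⊓ realSub ι

/-- `E` is a real finite Galois extension of `ℚ`. -/
def IsRealGalois (ι : Qb →+* ℂ) (E : IntermediateField ℚ Qb) : Prop :=
  FiniteDimensional ℚ E ∧ IsGalois ℚ E ∧ E ≤ realSub ι

/-- `d(K E) ≤ d(K⁺ E) ^ [K : ℚ] * d(K^ab E)` for all real finite Galois extensions `E` of `ℚ`. -/
def Bounded (p : ℕ) (ι : Qb →+* ℂ) (K : IntermediateField ℚ Qb) : Prop :=
  ∀ E, IsRealGalois ι E → ∀ C₁ C₂ : ℕ, DegLe p (plus ι K ⊔ E) C₁ → DegLe p (abPart K ⊔ E) C₂ →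
    DegLe p (K ⊔ E) (C₁ ^ finrank ℚ K * C₂)

/-- `d(K⁺ R) = 1` and `d(K R) ≤ d(K^ab R)` for all layers `R`. -/
def LayersBounded (p : ℕ) (ι : Qb →+* ℂ) (K : IntermediateField ℚ Qb) : Prop :=
  ∀ (m : ℕ) (R : IntermediateField ℚ Qb), IsLayer p m R →
    DegLe p (plus ι K ⊔ R) 1 ∧ ∀ C, DegLe p (abPart K ⊔ R) C → DegLe p (K ⊔ R) C

/-- `K / ℚ` is a finite Galois extension. -/
def IsFiniteGalois (K : IntermediateField ℚ Qb) : Prop := FiniteDimensional ℚ K ∧ IsGalois ℚ K

/-- `p` does not divide `[K : K^ab]`. -/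
def PrimeToP (p : ℕ) (K : IntermediateField ℚ Qb) : Prop :=
  ∃ n, finrank ℚ K = n * finrank ℚ (abPart K) ∧ ¬ p ∣ n

theorem result (p : ℕ) (hp : p.Prime) (hp2 : p ≠ 2) (ι : Qb →+* ℂ)
    (k K : IntermediateField ℚ Qb) (hKg : IsFiniteGalois K)
    (hk : IsImaginaryQuadratic ι k) (hK : IsAbelianOver k K) (hpK : PrimeToP p K) :
    Bounded p ι K ∧ (∀ F ≤ K, MuZero p K → MuZero p F) ∧
    (MuZero p K ↔ MuZero p (plus ι K) ∧ MuZero p (abPart K)) ∧
    (OnePrime p (plus ι K) → DegLe p (plus ι K) 1 →
      LayersBounded p ι K ∧ (MuZero p K ↔ MuZero p (abPart K))) := by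
  have hpf : Fact p.Prime := ⟨hp⟩
  obtain ⟨n, hn, hpn⟩ := hpK
  obtain ⟨hfK, hgK⟩ := hKg
  have hA : Bounded p ι K := fun E hE C₁ C₂ h1 h2 => by
    obtain ⟨h3, h4, h5⟩ := hE
    exact thmA hp2 ι k K E h5 hk.1 hk.2 hK.2 hn hpn h1 h2
  have hL : ∀ (m : ℕ) (R : IntermediateField ℚ Qb), IsLayer p m R → ∀ C₁ C₂ : ℕ,
      DegLe p (plus ι K ⊔ R) C₁ → DegLe p (abPart K ⊔ R) C₂ →
        DegLe p (K ⊔ R) (C₁ ^ finrank ℚ K * C₂) := fun m R hR =>
    hA R ⟨layer_fd hp hR, layer_galois hp hR, layer_real hp hp2 hR ι⟩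
  have hab : abPart K ≤ K := abPart_le K
  have hplus : plus ι K ≤ K := inf_le_left
  refine ⟨hA, fun F hF => mu_down hp hF, ⟨fun h => ⟨mu_down hp hplus h, mu_down hp hab h⟩, ?_⟩, ?_⟩
  · rintro ⟨⟨C₁, h1⟩, ⟨C₂, h2⟩⟩
    exact ⟨_, fun m R hR => hL m R hR C₁ C₂ (h1 m R hR) (h2 m R hR)⟩
  · intro hone hcl
    have hfd : FiniteDimensional ℚ ↥(plus ι K) :=
      Submodule.finiteDimensional_of_le (S₁ := Subalgebra.toSubmodule (plus ι K).toSubalgebra)
        (S₂ := Subalgebra.toSubmodule K.toSubalgebra) hplus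
    have h3 : LayersBounded p ι K := by
      intro m R hR
      have hf := layer_fd hp hR
      have hg := layer_galois hp hR
      have h4 := one_prime (plus ι K) hone hcl hR
      refine ⟨h4, fun C hC => ?_⟩
      have h5 := hL m R hR 1 C h4 hC
      rwa [one_pow, one_mul] at h5
    refine ⟨h3, fun h => mu_down hp hab h, ?_⟩
    rintro ⟨C, hC⟩
    exact ⟨C, fun m R hR => (h3 m R hR).2 C (hC m R hR)⟩

end Pool.Agent.Results.MP_b78433_nt.RealSubfields
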