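import Pool.Agent.W5h33.TW.Bnd

/-!
# The prime `2`: `μ = 0` for abelian extensions of imaginary quadratic fields and for their real
subfields

Let `k` be an imaginary quadratic field and let `K / k` be a finite abelian extension which is Galois
over `ℚ`, and let `2` not divide `[K : K^ab]`, where `K^ab` is the largest subfield which is abelian
over `ℚ`. (By Iwasawa's theorem on `2`-extensions it is enough for Q1 and `p = 2` to consider `K` with
`[K : k]` odd.) Let `K⁺ = K ∩ ℝ`. For a number field `E` let `d(E)` be the largest degree of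
an elementary abelian `2`-extension of `E` which is unramified at all finite and infinite primes, so
`d(E)` is the order of `Cl(E) / 2`. Then for all real fields `E` which are Galois over `ℚ`

  `d(K E) ≤ d(K⁺ E) ^ 2 d(K^ab E)`.

So `μ = 0` for the cyclotomic `ℤ_2`-extension of `K` if and only if `μ = 0` for `K⁺` and for `K^ab`. By
Ferrero and Washington `μ = 0` for `K^ab`. So Q1 for `p = 2` is equivalent to `μ = 0` for the fields
`K⁺` of odd degree over `ℚ`. If `K⁺` has one prime above `2` and an odd class number, then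
`d(K⁺ R) = 1` for all layers `R`, and `μ = 0` for `K` if and only if `μ = 0` for `K^ab`. More generally
let the class number of `K⁺` be odd, let `B ≤ K^ab` with `[K : B]` odd, and let `Z` be the
decomposition field in `K / B` of a prime of `K` above `2`. Then `d(K R) ≤ d(K^ab R) d(Z R) ^ [Z : ℚ]` for
all layers `R`, and `d(K R) ≤ d(K^ab R)` if `Z ≤ K^ab`, that is, if the primes above `2` of `K^ab` do
not split in `K`. So `μ = 0` for `K` if and only if `μ = 0` for `K^ab` and `Z`, or only for `K^ab` if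
`Z ≤ K^ab`. (If `K⁺` has one prime above `2`, then `Z ≤ K^ab`.)

Proof. Let `V` be the group of a maximal unramified elementary abelian `2`-extension of `K E` which is
Galois over `ℚ`. The group `D` of `K E / K^ab E` has odd order and is inverted by complex conjugation
`c`, so `V = V^D V'`, where the norm of `D` is trivial on `V'`. If `y ∈ V'` is fixed by `c`, then
`∏ δ(y) = 1`, where `δ` runs over `D`, and `δ(y) δ⁻¹(y) = δ(y) c(δ(y))`; since the elements `δ ≠ 1` come
in pairs, `y = c(z) / z` for some `z ∈ V'`. So the order of `V'` is the square of the order of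
`V' / (c - 1) V'`. This is the group of an unramified extension of `K⁺ E`: an inertia group over
`K⁺ E` outside of the group of `K E` is generated by `v c` with `v c(v) = 1`, so `c(v) = v` and
`v` is trivial in the quotient. The same holds for the complex conjugations. The last statement is
proved as in `DecompositionField`, starting with `d(K) ≤ d(K^ab)`.
-/

set_option autoImplicit false

namespace Pool.Agent.Results.MP_b78433_nt.TwoReal

open IntermediateField Module Pool.Agent.Q60.MU Pool.Agent.W5h77.MB Pool.Agent.W5h33.TW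
  Pool.Agent.W5h33.DF
open scoped ComplexConjugate

/-- `c` is the complex conjugation. -/
def IsConj (ι : Qb →+* ℂ) (c : Gal(Qb/ℚ)) : Prop := ∀ x, ι (c x) = conj (ι x)

/-- `K / ℚ` is a finite Galois extension. -/
def IsFiniteGalois (K : IntermediateField ℚ Qb) : Prop := FiniteDimensional ℚ K ∧ IsGalois ℚ K

/-- `k` is an imaginary quadratic field. -/
def IsImaginaryQuadratic (ι : Qb →+* ℂ) (k : IntermediateField ℚ Qb) : Prop :=
  finrank ℚ k = 2 ∧ ¬ k ≤ realSub ι

/-- `K` is an abelian extension of `k` (if `K` is Galois over `ℚ`). -/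
def IsAbelianOver (k K : IntermediateField ℚ Qb) : Prop :=
  k ≤ K ∧ ∀ σ ∈ k.fixingSubgroup, ∀ τ ∈ k.fixingSubgroup, ∀ x ∈ K, σ (τ x) = τ (σ x)

/-- `[K : B]` is odd. -/
def OddDegree (B K : IntermediateField ℚ Qb) : Prop :=
  ∃ n, finrank ℚ K = n * finrank ℚ B ∧ ¬ 2 ∣ n

/-- `R` is the `m`-th layer of the cyclotomic `ℤ_2`-extension of `ℚ`: a real field of degree `2 ^ m`
which is contained in a field generated by roots of unity of `2`-power order. -/
def IsRealLayer (ι : Qb →+* ℂ) (m : ℕ) (R : IntermediateField ℚ Qb) : Prop :=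
  IsLayer 2 m R ∧ R ≤ realSub ι

/-- `μ = 0` for the cyclotomic `ℤ_2`-extension of `F`: the elementary abelian `2`-extensions of the
layers `F R` which are unramified at all finite and infinite primes have bounded degree. -/
def MuZeroTwo (ι : Qb →+* ℂ) (c : Gal(Qb/ℚ)) (F : IntermediateField ℚ Qb) : Prop :=
  ∃ C : ℕ, ∀ (m : ℕ) (R : IntermediateField ℚ Qb), IsRealLayer ι m R → DegLeW 2 c (F ⊔ R) C

/-- `K⁺ = K ∩ ℝ`. -/
noncomputable def realPart (ι : Qb →+* ℂ) (K : IntermediateField ℚ Qb) : IntermediateField ℚ Qb :=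
  K ⊓ realSub ι

/-- `d(K E) ≤ d(K⁺ E) ^ 2 d(K^ab E)`. -/
def RealBound (ι : Qb →+* ℂ) (c : Gal(Qb/ℚ)) (K E : IntermediateField ℚ Qb) : Prop :=
  ∀ C₁ C₂, DegLeW 2 c (realPart ι K ⊔ E) C₁ → DegLeW 2 c (abPart K ⊔ E) C₂ →
    DegLeW 2 c (K ⊔ E) (C₁ ^ 2 * C₂)

/-- `d(K⁺ E) = 1` and `d(K E) ≤ d(K^ab E)`. -/
def OddBound (ι : Qb →+* ℂ) (c : Gal(Qb/ℚ)) (K E : IntermediateField ℚ Qb) : Prop :=
  DegLeW 2 c (realPart ι K ⊔ E) 1 ∧ ∀ C, DegLeW 2 c (abPart K ⊔ E) C → DegLeW 2 c (K ⊔ E) C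

/-- `Z` is the decomposition field in `K / B` of the prime of `A` above `2`, `B ≤ K^ab` and `[K : B]`
is odd. -/
def IsSplitting (A : ValuationSubring Qb) (B K Z : IntermediateField ℚ Qb) : Prop :=
  (2 : Qb) ∈ A.nonunits ∧ B ≤ abPart K ∧ OddDegree B K ∧ IsDecompositionField A B K Z

/-- `d(K E) ≤ d(K^ab E) d(Z E) ^ [Z : ℚ]`, and `d(K E) ≤ d(K^ab E)` if `Z ≤ K^ab`. -/
def SplitBound (c : Gal(Qb/ℚ)) (K Z E : IntermediateField ℚ Qb) : Prop :=
  ∀ C, DegLeW 2 c (abPart K ⊔ E) C →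
    (∀ C', DegLeW 2 c (Z ⊔ E) C' → DegLeW 2 c (K ⊔ E) (C * C' ^ finrank ℚ Z)) ∧
    (Z ≤ abPart K → DegLeW 2 c (K ⊔ E) C)

theorem result (ι : Qb →+* ℂ) (c : Gal(Qb/ℚ)) (hc : IsConj ι c)
    (k K : IntermediateField ℚ Qb) (hk : IsImaginaryQuadratic ι k) (hK : IsFiniteGalois K)
    (hkK : IsAbelianOver k K) (hodd : OddDegree (abPart K) K) :
    (∀ E : IntermediateField ℚ Qb, IsFiniteGalois E → E ≤ realSub ι → RealBound ι c K E) ∧
    (MuZeroTwo ι c K ↔ MuZeroTwo ι c (realPart ι K) ∧ MuZeroTwo ι c (abPart K)) ∧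
    (OnePrime 2 (realPart ι K) → DegLeW 2 c (realPart ι K) 1 →
      (∀ (m : ℕ) (R : IntermediateField ℚ Qb), IsRealLayer ι m R → OddBound ι c K R) ∧
      (MuZeroTwo ι c K ↔ MuZeroTwo ι c (abPart K))) ∧
    (DegLeW 2 c (realPart ι K) 1 → ∀ A B Z, IsSplitting A B K Z →
      (∀ (m : ℕ) (R : IntermediateField ℚ Qb), IsRealLayer ι m R → SplitBound c K Z R) ∧
      (MuZeroTwo ι c K ↔ MuZeroTwo ι c (abPart K) ∧ MuZeroTwo ι c Z) ∧
      (Z ≤ abPart K → (MuZeroTwo ι c K ↔ MuZeroTwo ι c (abPart K)))) := by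
  have hp : Fact (Nat.Prime 2) := ⟨Nat.prime_two⟩
  obtain ⟨hfK, hgK⟩ := hK
  obtain ⟨hk1, hk2⟩ := hk
  obtain ⟨hk3, hk4⟩ := hkK
  obtain ⟨n, hn, hpn⟩ := hodd
  have hab := abPart_le K
  have hcc : c * c = 1 := conj_sq hc
  have hsub : ∀ M : IntermediateField ℚ Qb, M ≤ K → FiniteDimensional ℚ M := fun M hM =>
    Submodule.finiteDimensional_of_le (S₁ := Subalgebra.toSubmodule M.toSubalgebra)
      (S₂ := Subalgebra.toSubmodule K.toSubalgebra) hM
  have hf1 : FiniteDimensional ℚ (realPart ι K) := hsub (K ⊓ realSub ι) inf_le_left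
  have hbd : ∀ E : IntermediateField ℚ Qb, IsFiniteGalois E → E ≤ realSub ι →
      RealBound ι c K E := by
    rintro E ⟨hE1, hE2⟩ hE3 C₁ C₂ h1 h2
    exact thmT ι hc hcc k K E hE3 hk1 hk2 hk3 hk4 hn hpn h1 h2
  have hlay : ∀ (m : ℕ) (R : IntermediateField ℚ Qb), IsRealLayer ι m R → IsFiniteGalois R :=
    fun m R hR => ⟨layer_fd Nat.prime_two hR.1, layer_galois Nat.prime_two hR.1⟩
  have hdn : ∀ F : IntermediateField ℚ Qb, F ≤ K → MuZeroTwo ι c K → MuZeroTwo ι c F := by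
    rintro F hF ⟨C, hC⟩
    exact ⟨_, fun m R hR => deg_down Nat.prime_two hcc hF hR.1 (hC m R hR)⟩
  refine ⟨hbd, ⟨fun h => ⟨hdn _ inf_le_left h, hdn _ hab h⟩, ?_⟩, fun h1 h2 => ?_, ?_⟩
  · rintro ⟨⟨C₁, hC₁⟩, ⟨C₂, hC₂⟩⟩
    exact ⟨C₁ ^ 2 * C₂, fun m R hR => hbd R (hlay m R hR) hR.2 C₁ C₂ (hC₁ m R hR) (hC₂ m R hR)⟩
  · have hone : ∀ (m : ℕ) (R : IntermediateField ℚ Qb), IsRealLayer ι m R →
        OddBound ι c K R := by
      intro m R hR
      have hfR := (hlay m R hR).1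
      have hgR := (hlay m R hR).2
      have hcR : c ∈ R.fixingSubgroup := by
        rw [IntermediateField.mem_fixingSubgroup_iff]
        intro x hx
        apply ι.injective
        rw [hc]
        exact mem_realSub.1 (hR.2 hx)
      have h3 := one_primeW hcc (realPart ι K) h1 h2 hR.1 hcR
      refine ⟨h3, fun C hC => ?_⟩
      have h4 := hbd R (hlay m R hR) hR.2 1 C h3 hC
      rwa [one_pow, one_mul] at h4
    refine ⟨hone, fun h => hdn _ hab h, ?_⟩
    rintro ⟨C, hC⟩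
    exact ⟨C, fun m R hR => (hone m R hR).2 C (hC m R hR)⟩
  · rintro h1 A B Z ⟨hA, hB, hBK, hZ⟩
    have hA' : ((2 : ℕ) : Qb) ∈ A.nonunits := by exact_mod_cast hA
    have hZK : Z ≤ K := fun x hx => ((hZ x).1 hx).1
    have hsb : ∀ (m : ℕ) (R : IntermediateField ℚ Qb), IsRealLayer ι m R → SplitBound c K Z R := by
      intro m R hR C hC
      refine ⟨fun C' hC' => ?_, fun hZab => ?_⟩
      · exact bound_plusW hc hB hBK hA' hZ k hk1 hk2 hk3 hk4 h1 hR.1 hR.2 hC
          (Or.inl ⟨C, C', hC, hC', rfl⟩)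
      · exact bound_plusW hc hB hBK hA' hZ k hk1 hk2 hk3 hk4 h1 hR.1 hR.2 hC
          (Or.inr ⟨hZab, hC⟩)
    refine ⟨hsb, ⟨fun h => ⟨hdn _ hab h, hdn _ hZK h⟩, ?_⟩,
      fun hZab => ⟨fun h => hdn _ hab h, ?_⟩⟩
    · rintro ⟨⟨C, hC⟩, ⟨C', hC'⟩⟩
      exact ⟨_, fun m R hR => (hsb m R hR C (hC m R hR)).1 C' (hC' m R hR)⟩
    · rintro ⟨C, hC⟩
      exact ⟨C, fun m R hR => (hsb m R hR C (hC m R hR)).2 hZab⟩

end Pool.Agent.Results.MP_b78433_nt.TwoReal
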